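import Mathlib
import Pool.Agent.N178.HX.StmD

/-!
Project GHC3: the exponential of an element of square zero preserves the stable spaces.
-/

set_option linter.unusedSectionVars false

namespace Pool.Agent.N717.HX

open Finset Matrix Pool.Agent.W437.HC Pool.Agent.V1168.GH Pool.Agent.H204R3.SP
open Pool.Agent.N178.HW Pool.Agent.N178.HX

noncomputable section

variable {κ R : Type} [Fintype κ] [DecidableEq κ] [Fintype R] [DecidableEq R]

/-- `N` in the slots of `S` -/
def sl (N : Matrix R R ℂ) (S : Finset κ) : κ → Matrix R R ℂ := fun k => if k ∈ S then N else 1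

theorem evalF_sum' {ι : Type} (s : Finset ι) (f : ι → (κ → R) → ℂ) (x : κ → R → ℂ) :
    evalF (∑ i ∈ s, f i) x = ∑ i ∈ s, evalF (f i) x := by
  classical
  induction s using Finset.induction_on with
  | empty => simp [evalF]
  | insert a s ha ih => rw [Finset.sum_insert ha, Finset.sum_insert ha, evalF_add, ih]

theorem pl_expand (N : Matrix R R ℂ) (u : (κ → R) → ℂ) :
    pl (fun _ => 1 + N) u = ∑ S : Finset κ, pl (sl N S) u := by
  refine ext_evalF fun x => ?_
  rw [evalF_pl, evalF_sum']
  have h1 : (fun k => (1 + N) *ᵥ x k) = (fun k => N *ᵥ x k) + (fun k => x k) := by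
    funext k
    rw [Pi.add_apply, Matrix.add_mulVec, Matrix.one_mulVec, add_comm]
  rw [h1, ← evalM_apply u, MultilinearMap.map_add_univ]
  refine Finset.sum_congr rfl fun S _ => ?_
  rw [evalF_pl, evalM_apply]
  congr 1
  funext k
  unfold sl
  by_cases h : k ∈ S
  · rw [Finset.piecewise_eq_of_mem _ _ _ h, if_pos h]
  · rw [Finset.piecewise_eq_of_notMem _ _ _ h, if_neg h, Matrix.one_mulVec]

theorem evalF_update_zero (u : (κ → R) → ℂ) (x : κ → R → ℂ) (k : κ) :
    evalF u (Function.update x k 0) = 0 := by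
  have h := evalF_update_smul u x k 0 0
  rwa [zero_smul, zero_mul] at h

theorem act_sl {N : Matrix R R ℂ} (hN : N * N = 0) (u : (κ → R) → ℂ) (S : Finset κ) :
    act N (pl (sl N S) u) = ∑ l ∈ univ.filter (fun l => l ∉ S), pl (sl N (insert l S)) u := by
  refine ext_evalF fun x => ?_
  rw [evalF_act, evalF_sum', Finset.sum_filter]
  refine Finset.sum_congr rfl fun l _ => ?_
  rw [evalF_pl, mulVec_update']
  by_cases h : l ∈ S
  · have h1 : sl N S l = N := if_pos h
    rw [if_neg (not_not.mpr h), h1, mulVec_mulVec, hN, Matrix.zero_mulVec, evalF_update_zero]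
  · have h1 : sl N S l = 1 := if_neg h
    rw [if_pos h, h1, Matrix.one_mulVec, evalF_pl]
    congr 1
    funext m
    by_cases hm : m = l
    · subst hm
      rw [Function.update_self]
      unfold sl
      rw [if_pos (Finset.mem_insert_self _ _)]
    · rw [Function.update_of_ne hm]
      unfold sl
      by_cases hS : m ∈ S
      · rw [if_pos hS, if_pos (Finset.mem_insert_of_mem hS)]
      · rw [if_neg hS, if_neg]
        intro h2
        rcases Finset.mem_insert.mp h2 with h3 | h3
        · exact hm h3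
        · exact hS h3

theorem double_count {V : Type} [AddCommGroup V] [Module ℂ V] (f : Finset κ → V) (j : ℕ) :
    ∑ S ∈ powersetCard j (univ : Finset κ), ∑ l ∈ univ.filter (fun l => l ∉ S), f (insert l S) =
      ((j : ℂ) + 1) • ∑ S ∈ powersetCard (j + 1) (univ : Finset κ), f S := by
  have h1 : ((j : ℂ) + 1) • ∑ S ∈ powersetCard (j + 1) (univ : Finset κ), f S =
      ∑ S ∈ powersetCard (j + 1) (univ : Finset κ), ∑ _l ∈ S, f S := by
    rw [Finset.smul_sum]
    refine Finset.sum_congr rfl fun S hS => ?_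
    rw [Finset.sum_const, (Finset.mem_powersetCard.mp hS).2, ← Nat.cast_smul_eq_nsmul ℂ]
    push_cast
    rfl
  rw [h1, Finset.sum_sigma', Finset.sum_sigma']
  refine Finset.sum_bij' (fun p _ => ⟨insert p.2 p.1, p.2⟩) (fun p _ => ⟨p.1.erase p.2, p.2⟩)
    ?_ ?_ ?_ ?_ ?_
  · rintro ⟨S, l⟩ h
    rw [Finset.mem_sigma, Finset.mem_powersetCard, Finset.mem_filter] at h
    rw [Finset.mem_sigma, Finset.mem_powersetCard]
    refine ⟨⟨Finset.subset_univ _, ?_⟩, Finset.mem_insert_self _ _⟩
    rw [Finset.card_insert_of_notMem h.2.2, h.1.2]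
  · rintro ⟨S, l⟩ h
    rw [Finset.mem_sigma, Finset.mem_powersetCard] at h
    rw [Finset.mem_sigma, Finset.mem_powersetCard, Finset.mem_filter]
    refine ⟨⟨Finset.subset_univ _, ?_⟩, Finset.mem_univ _, Finset.notMem_erase _ _⟩
    rw [Finset.card_erase_of_mem h.2, h.1.2]
    rfl
  · rintro ⟨S, l⟩ h
    rw [Finset.mem_sigma, Finset.mem_filter] at h
    have : (insert l S).erase l = S := Finset.erase_insert h.2.2
    simp only [this]
  · rintro ⟨S, l⟩ h
    rw [Finset.mem_sigma] at h
    have : insert l (S.erase l) = S := Finset.insert_erase h.2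
    simp only [this]
  · rintro ⟨S, l⟩ _
    rfl

/-- the action as a linear map -/
def actR (N : Matrix R R ℂ) : ((κ → R) → ℂ) →ₗ[ℂ] ((κ → R) → ℂ) where
  toFun := act N
  map_add' := act_add_right N
  map_smul' a c := act_smul_right a N c

theorem act_E {N : Matrix R R ℂ} (hN : N * N = 0) (u : (κ → R) → ℂ) (j : ℕ) :
    act N (∑ S ∈ powersetCard j (univ : Finset κ), pl (sl N S) u) =
      ((j : ℂ) + 1) • ∑ S ∈ powersetCard (j + 1) (univ : Finset κ), pl (sl N S) u := by
  rw [← double_count]
  change actR N _ = _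
  rw [map_sum]
  exact Finset.sum_congr rfl fun S _ => act_sl hN u S

/-- GHC3/EXPO -/
theorem t_EXPO : Pool.Agent.N178.HX.S_EXPO := by
  intro κ R P _ _ _ _ _ cls inv jj T U hU N hN hNN u hu
  have hE : ∀ j : ℕ, ∑ S ∈ powersetCard j (univ : Finset κ), pl (sl N S) u ∈ U := by
    intro j
    induction j with
    | zero =>
      rw [Finset.powersetCard_zero, Finset.sum_singleton]
      have h1 : sl N (∅ : Finset κ) = fun _ => 1 := by
        funext k
        exact if_neg (Finset.notMem_empty k)
      rw [h1, pl_one]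
      exact hu
    | succ j ih =>
      have h1 := hU N hN _ ih
      rw [act_E hNN] at h1
      have h2 := U.smul_mem ((j : ℂ) + 1)⁻¹ h1
      have h3 : ((j : ℂ) + 1) ≠ 0 := Nat.cast_add_one_ne_zero j
      rwa [smul_smul, inv_mul_cancel₀ h3, one_smul] at h2
  rw [pl_expand, ← Finset.powerset_univ, Finset.sum_powerset]
  exact U.sum_mem fun j _ => hE j

end

end Pool.Agent.N717.HX
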